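import Pool.Agent.Lib.MP_a3bd00_gt.Main

set_option autoImplicit false

open Pool.Agent.Lib.MP_a3bd00_gt

/-- The supremum of the volumes enclosed by isometric realizations of the double unit square in
space is at most `0.2083`. -/
theorem Pool.Agent.Results.MP_a3bd00_gt.UpperBound.result :
    maxVolume ≤ ENNReal.ofReal (2083 / 10000) :=
  maxVolume_le
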